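import Pool.Agent.H.MP_683aef_lc.B

set_option autoImplicit false

namespace Pool.Agent.Results.MP_683aef_lc.Four

open FirstOrder FirstOrder.Language Set Cardinal Pool.Agent.H.MP_683aef_lc

/-- countable models of `T` -/
def CM {L : FirstOrder.Language.{0, 0}} (T : L.Theory) : Type 1 :=
  {M : Theory.ModelType.{0, 0, 0} T // Countable M}

/-- mutual elementary embeddability -/
def Similar {L : FirstOrder.Language.{0, 0}} (T : L.Theory) (M N : CM T) : Prop :=
  Nonempty (M.1 ↪ₑ[L] N.1) ∧ Nonempty (N.1 ↪ₑ[L] M.1)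

/-- isomorphism -/
def Isom {L : FirstOrder.Language.{0, 0}} (T : L.Theory) (M N : CM T) : Prop :=
  Nonempty (M.1 ≃[L] N.1)

theorem eqv (M N : Type) [Lg.Structure M] [Lg.Structure N] (a : Gen (rel M)) (b : Gen (rel N)) :
    M ≅[Lg] N := elementarilyEquivalent_iff.2 fun φ =>
  let ⟨K, h⟩ := pres φ
  h K le_rfl M N a b ∅ finite_empty (by simp [PI]) _ _ _ _ (·.elim) (·.elim0)

theorem rele {M N : Type} [Lg.Structure M] [Lg.Structure N] (e : M ↪[Lg] N) (b : Bool) (n : ℕ)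
    (x y : M) : rel N b n (e x) (e y) ↔ rel M b n x y :=
  (rm b n (e ∘ ![x, y])).symm.trans (e.map_rel _ _)

def Mn {M : Type} (S : Rl M) (a : M) : Prop :=
  (∀ n, S false (n + 1) a a) ∧ ∀ x, S false 0 x a → ¬∀ n, S false (n + 1) x x

def Iv {M : Type} (S : Rl M) : Set ℕ :=
  {k | ∃ a, Mn S a ∧ {b | Mn S b ∧ S true 0 a b}.ncard = k + 1}

theorem iv_eq {M N : Type} [Lg.Structure M] [Lg.Structure N] (e : M ≃[Lg] N) :
    Iv (rel M) = Iv (rel N) := by
  have h : ∀ b n x y, rel N b n (e x) (e y) ↔ rel M b n x y := rele e.toEmbedding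
  have k : ∀ a, Mn (rel N) (e a) ↔ Mn (rel M) a := fun a => by
    simp only [Mn, e.surjective.forall, h]
  ext n
  refine e.toEquiv.exists_congr fun a => and_congr (k a).symm ?_
  rw [← ncard_preimage_of_injective_subset_range (f := e) (s := {b | Mn (rel N) b ∧ _}) e.injective
    (by rw [e.surjective.range_eq]; exact subset_univ _)]
  exact iff_of_eq (congrArg (ncard · = _) (Set.ext fun b => and_congr (k b).symm (h _ _ a b).symm))

/-- A complete countable theory with four similarity classes and uncountably many countable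
models. -/
theorem result : ∃ (L : FirstOrder.Language.{0, 0}) (T : L.Theory), L.card ≤ ℵ₀ ∧ T.IsComplete ∧
    (∀ M : Theory.ModelType.{0, 0, 0} T, Infinite M) ∧ Finite (Quot (Similar T)) ∧
    Nat.card (Quot (Similar T)) = 4 ∧ Uncountable (Quot (Isom T)) := by
  classical
  choose S s1 s2 s3 using fun (a : Set ℕ) (z : Bool → Prop) => model
    (fun b x y => b = true ∧ x % 4 = 2 ∧ x / 4 ∈ a ∧ y % 4 = 0 ∧ y < x) z (by omega) (by omega)
    (by omega)
  let T : Lg.Theory := @completeTheory Lg ℕ (str (S ∅ fun _ => False))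
  have e : ∀ M : Theory.ModelType.{0, 0, 0} T,
      @ElementarilyEquivalent Lg ℕ M (str (S ∅ fun _ => False)) _ := fun M =>
    letI := str (S ∅ fun _ => False)
    elementarilyEquivalent_iff.2 fun φ => (realize_iff_of_model_completeTheory ℕ M φ).symm
  have g : ∀ M : Theory.ModelType.{0, 0, 0} T, Gen (rel M) := fun M =>
    @tran ℕ M (str _) _ (e M) (s1 _ _)
  let mk : Set ℕ → (Bool → Prop) → CM T := fun a z => ⟨@Theory.ModelType.mk Lg T ℕ (str (S a z))
    ((@Theory.model_iff_subset_completeTheory Lg ℕ (str (S a z)) T).2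
      (@eqv ℕ ℕ (str _) (str (S a z)) (s1 _ _) (s1 _ _)).subset) ⟨0⟩,
    inferInstanceAs (Countable ℕ)⟩
  let c : CM T → Bool → Prop := fun M b => ∃ x, ∀ n, rel M.1 b (n + 1) x x
  have c1 : ∀ M N : CM T, Nonempty (M.1 ↪ₑ[Lg] N.1) ↔ c M ≤ c N := fun M N => by
    refine ⟨fun ⟨f⟩ b ⟨x, h⟩ => ⟨f x, fun n => (rele f.toEmbedding _ _ _ _).2 (h n)⟩, fun h => ?_⟩
    have := M.2
    obtain ⟨f, hf⟩ := emb (g M.1).1 (g N.1) h
    refine ⟨⟨f, fun n φ x => ?_⟩⟩
    obtain ⟨K, k⟩ := pres φ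
    exact (k K le_rfl _ _ (g M.1) (g N.1) _ (finite_range fun i => (x i, f (x i)))
      (by rintro _ ⟨i, rfl⟩ _ ⟨j, rfl⟩; exact hf K _ ⟨_, rfl⟩ _ ⟨_, rfl⟩) x (f ∘ x) _ _
      (fun i => ⟨i, rfl⟩) (·.elim0)).symm
  have c2 : ∀ M N, Similar T M N ↔ c M = c N := fun M N => by
    rw [Similar, c1, c1, le_antisymm_iff]
  have c3 : Quot (Similar T) ≃ (Bool → Prop) := by
    refine .ofBijective (Quot.lift c fun M N => (c2 M N).1) ⟨?_, fun z => ⟨.mk _ (mk ∅ z), ?_⟩⟩
    · rintro ⟨M⟩ ⟨N⟩ h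
      exact Quot.sound ((c2 M N).2 h)
    · ext b
      exact ⟨fun ⟨x, h⟩ => ((s3 ∅ z b x).1 h).1, fun h => ⟨(0 : ℕ), (s3 ∅ z b 0).2 ⟨h, 0, rfl, .inl rfl⟩⟩⟩
  refine ⟨Lg, T, ?_, @completeTheory.isComplete Lg ℕ (str _) _, fun M =>
    @ElementarilyEquivalent.infinite Lg ℕ M (str _) _ _ (e M), .of_equiv _ c3.symm, ?_, ?_⟩
  · have : ∀ n, Countable (Lg.Functions n) := fun _ => inferInstanceAs (Countable Empty)
    have : ∀ n, Countable (Lg.Relations n) := fun n =>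
      inferInstanceAs (Countable {_x : Bool × ℕ // n = 2})
    exact mk_le_aleph0_iff.2 (inferInstanceAs (Countable (_ ⊕ _)))
  · rw [Nat.card_congr c3]
    simp
  have iv : ∀ a, Iv (S a fun _ => True) = a := fun a => by
    have m : ∀ x, Mn (S a fun _ => True) x ↔ x % 2 = 0 := fun x => by
      simp only [Mn, s3]
      refine ⟨fun ⟨⟨_, y, h1, h2⟩, h3⟩ => h2.elim (· ▸ h1) fun h =>
        (h3 y h ⟨trivial, y, h1, .inl rfl⟩).elim, fun h => ⟨⟨trivial, x, h, .inl rfl⟩,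
          fun y h1 ⟨_, w, h2, h3⟩ => ?_⟩⟩
      simpa using (s2 a _ false w x h2 h).1
        (h3.elim (· ▸ h1) ((s1 a _).1.tr false _ _ _ · h1))
    have k : ∀ x, x % 2 = 0 → {b | Mn (S a fun _ => True) b ∧ S a (fun _ => True) true 0 x b} =
        {y | x % 4 = 2 ∧ x / 4 ∈ a ∧ y % 4 = 0 ∧ y < x} := fun x h => Set.ext fun y => by
      simp only [m, mem_ofPred_eq]
      exact ⟨fun k => ((s2 a _ true x y h k.1).1 k.2).2, fun k =>
        ⟨by omega, (s2 a _ true x y h (by omega)).2 ⟨rfl, k⟩⟩⟩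
    have k2 : ∀ x, x % 4 = 2 → x / 4 ∈ a →
        {y | x % 4 = 2 ∧ x / 4 ∈ a ∧ y % 4 = 0 ∧ y < x}.ncard = x / 4 + 1 := fun x h1 h2 => by
      rw [show {y | x % 4 = 2 ∧ x / 4 ∈ a ∧ y % 4 = 0 ∧ y < x} = (4 * ·) '' Iic (x / 4) from
        Set.ext fun y => ⟨fun h => ⟨y / 4, by simp only [mem_ofPred_eq, mem_Iic] at h ⊢; omega,
          by have := h.2.2.1; simp only; omega⟩, fun ⟨w, h, e⟩ => ⟨h1, h2, by
            simp only [mem_Iic] at h e; omega⟩⟩,
        ncard_image_of_injective _ fun _ _ h => by simpa using h]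
      simp
    ext n
    refine ⟨fun ⟨x, h1, h2⟩ => ?_, fun h => ⟨4 * n + 2, (m _).2 (by omega), ?_⟩⟩
    · rw [k x ((m x).1 h1)] at h2
      obtain ⟨y, h⟩ := nonempty_of_ncard_ne_zero (h2.trans_ne n.succ_ne_zero)
      rw [k2 x h.1 h.2.1] at h2
      exact Nat.succ_injective h2 ▸ h.2.1
    · have : (4 * n + 2) / 4 = n := by omega
      rw [k _ (by omega), k2 _ (by omega) (by rwa [this]), this]
  have : Uncountable (Set ℕ) := aleph0_lt_mk_iff.1 (mk_set_nat ▸ aleph0_lt_continuum)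
  refine Function.Surjective.uncountable
    (f := Quot.lift (fun M : CM T => Iv (rel M.1)) fun M N ⟨f⟩ => iv_eq f) fun a => ?_
  exact ⟨.mk _ (mk a fun _ => True), iv a⟩

end Pool.Agent.Results.MP_683aef_lc.Four
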